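import Pool.Agent.H211.CH.Stm

/-!
# Project CH (helper211): Riemann-Hurwitz for polynomials
-/

set_option autoImplicit false

open Polynomial

namespace Pool.Agent.H967.CH211

open Pool.Agent.H211.CH

universe u

variable {K : Type u} [Field K]

theorem sub_ne {G : K[X]} (hG : 0 < G.natDegree) (w : K) : G - C w ≠ 0 := by
  intro h
  have h1 : (G - C w).natDegree = G.natDegree := natDegree_sub_C
  rw [h, natDegree_zero] at h1
  omega

open Classical in
/-- the fibre over `w` -/
noncomputable def fib (G : K[X]) (w : K) : Finset K := (G - C w).roots.toFinset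

theorem mem_fib {G : K[X]} (hG : 0 < G.natDegree) {w y : K} : y ∈ fib G w ↔ G.eval y = w := by
  classical
  unfold fib
  rw [Multiset.mem_toFinset, mem_roots (sub_ne hG w), IsRoot.def, eval_sub, eval_C, sub_eq_zero]

theorem ncard_fib {G : K[X]} (hG : 0 < G.natDegree) (w : K) :
    {y : K | G.eval y = w}.ncard = (fib G w).card := by
  rw [← Set.ncard_coe_finset]
  congr 1
  ext y
  rw [Finset.mem_coe, mem_fib hG]
  rfl

theorem count_deriv [CharZero K] {G : K[X]} (hG : 0 < G.natDegree) {w y : K}
    (hy : G.eval y = w) :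
    (G - C w).rootMultiplicity y = (derivative G).rootMultiplicity y + 1 := by
  have h1 : (G - C w).IsRoot y := by
    rw [IsRoot.def, eval_sub, eval_C, hy, sub_self]
  have h2 := derivative_rootMultiplicity_of_root h1
  rw [derivative_sub, derivative_C, sub_zero] at h2
  have h3 : 0 < (G - C w).rootMultiplicity y :=
    (rootMultiplicity_pos (sub_ne hG w)).2 h1
  omega

theorem fib_sum [IsAlgClosed K] [CharZero K] {G : K[X]} (hG : 0 < G.natDegree) (w : K) :
    G.natDegree = (∑ y ∈ fib G w, (derivative G).rootMultiplicity y) + (fib G w).card := by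
  classical
  have h1 : (G - C w).roots.card = G.natDegree := by
    rw [IsAlgClosed.card_roots_eq_natDegree, natDegree_sub_C]
  rw [← h1, ← Multiset.toFinset_sum_count_eq, Finset.card_eq_sum_ones, ← Finset.sum_add_distrib]
  have e : fib G w = (G - C w).roots.toFinset := by
    unfold fib
    congr
  rw [e]
  refine Finset.sum_congr rfl fun y hy => ?_
  rw [count_roots]
  rw [← e] at hy
  exact count_deriv hG ((mem_fib hG).1 hy)

omit [Field K] in
theorem sum_count_le (m : Multiset K) (s : Finset K) [DecidableEq K] :
    ∑ a ∈ s, m.count a ≤ Multiset.card m := by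
  have h1 : ∑ a ∈ s, m.count a ≤ ∑ a ∈ s ∪ m.toFinset, m.count a :=
    Finset.sum_le_sum_of_subset Finset.subset_union_left
  refine h1.trans (le_of_eq ?_)
  exact Multiset.sum_count_eq_card fun a ha =>
    Finset.mem_union_right _ (Multiset.mem_toFinset.2 ha)

theorem t_RH [IsAlgClosed K] [CharZero K] : S_RH K := by
  classical
  intro G hG W
  have h1 : ∀ w ∈ W, ((G.natDegree : ℤ) - ({y : K | G.eval y = w}.ncard : ℤ)) =
      ((∑ y ∈ fib G w, (derivative G).rootMultiplicity y : ℕ) : ℤ) := by
    intro w _
    rw [ncard_fib hG w]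
    have := fib_sum hG w
    omega
  rw [Finset.sum_congr rfl h1, ← Nat.cast_sum]
  have hdisj : ∀ w ∈ W, ∀ w' ∈ W, w ≠ w' → Disjoint (fib G w) (fib G w') := by
    intro w _ w' _ hne
    rw [Finset.disjoint_left]
    intro y h2 h3
    rw [mem_fib hG] at h2 h3
    exact hne (h2.symm.trans h3)
  rw [← Finset.sum_biUnion hdisj]
  have h2 : ∑ y ∈ W.biUnion (fib G), (derivative G).rootMultiplicity y ≤ G.natDegree - 1 := by
    have h3 : ∀ y ∈ W.biUnion (fib G), (derivative G).rootMultiplicity y =
        (derivative G).roots.count y := fun y _ => (count_roots _).symm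
    rw [Finset.sum_congr rfl h3]
    exact (sum_count_le _ _).trans ((card_roots' _).trans (natDegree_derivative_le G))
  omega

end Pool.Agent.H967.CH211
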